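import Mathlib
import Pool.Agent.Helper10.OddDensity.Isolated

set_option autoImplicit false

open Filter Topology
open Pool.Agent.Helper10.OddDensity

namespace Pool.Agent.Results.MP_4155d9_nt.CoprimeTerms

/-- If the sum of the reciprocals of the isolated terms (odd, greater than `1`, coprime to all
other terms) diverges, then the greatest common divisor is `1` and the odd densities tend to
`1 / 2`. In particular this holds for the sequence of all primes, and for all its tails. -/
theorem result :
    (∀ a ∈ IsolatedFamily, (∀ d, (∀ i, d ∣ a i) → d = 1) ∧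
      ∃ δ : ℕ → ℝ, (∀ k, HasOddDensity a k (δ k)) ∧ Tendsto δ atTop (𝓝 (1 / 2))) ∧
    (∀ m : ℕ, (fun i => Nat.nth Nat.Prime (m + i)) ∈ IsolatedFamily) ∧
    {a | a ∈ IsolatedFamily ∧ StrictMono a}.Infinite :=
  coprimeTerms_main

end Pool.Agent.Results.MP_4155d9_nt.CoprimeTerms
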