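import Mathlib
import Pool.Agent.Helper10.OddDensity.ExactHalf

set_option autoImplicit false

open Filter Topology
open Pool.Agent.Helper10.OddDensity

namespace Pool.Agent.Results.MP_4155d9_nt.ExactHalf

/-- Every member `a` of the family has `gcd a = 1` and all its odd densities exist, are equal to
`1 / 2` for all large `k`, and so have limit `1 / 2`. The family is explicit: it contains
`(b 0, b 1, b 2, 2 * b 3, 4 * b 4, 8 * b 5, ...)` for all odd `b i` with greatest common
divisor `1`, and infinitely many strictly increasing sequences. -/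
theorem result :
    (∀ a ∈ Family, ∃ δ : ℕ → ℝ, (∀ k, HasOddDensity a k (δ k)) ∧ (∃ K, ∀ k ≥ K, δ k = 1 / 2) ∧
      Tendsto δ atTop (𝓝 (1 / 2))) ∧
    (∀ b : ℕ → ℕ, (∀ i, Odd (b i)) → (∀ d, (∀ i, d ∣ b i) → d = 1) → seqOf b ∈ Family) ∧
    {a | a ∈ Family ∧ StrictMono a}.Infinite :=
  exactHalf_main

end Pool.Agent.Results.MP_4155d9_nt.ExactHalf
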